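import Pool.Agent.W106.CW.Stm

/-!
The inequality behind convexity (MP_dc9350_co, part QIneq).
-/

set_option autoImplicit false

namespace Pool.Agent.W397.CW

open Pool.Agent.W106.CW

/-- the quotient polynomial at `(1 - b, a)` -/
theorem dpos {a b : ℝ} (ha0 : 0 ≤ a) (ha1 : a ≤ 1) (hb : 0 ≤ b) :
    0 ≤ (24 - 40 * a + 32 * a ^ 2 - 14 * a ^ 3 + 3 * a ^ 4)
      + (72 - 64 * a + 24 * a ^ 2 - 2 * a ^ 3) * b
      + (72 + 48 * a - 80 * a ^ 2 + 44 * a ^ 3 - 9 * a ^ 4) * b ^ 2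
      + (24 + 128 * a - 64 * a ^ 2 + 12 * a ^ 3) * b ^ 3
      + (56 * a + 48 * a ^ 2 - 38 * a ^ 3 + 9 * a ^ 4) * b ^ 4
      + (40 * a ^ 2 - 10 * a ^ 3) * b ^ 5
      + (8 * a ^ 3 - 3 * a ^ 4) * b ^ 6 := by
  obtain ⟨e, he⟩ : ∃ e, e = 1 - a := ⟨_, rfl⟩
  have he0 : 0 ≤ e := by linarith
  have h0 : 0 ≤ 24 - 40 * a + 32 * a ^ 2 - 14 * a ^ 3 + 3 * a ^ 4 := by
    have : 24 - 40 * a + 32 * a ^ 2 - 14 * a ^ 3 + 3 * a ^ 4 =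
        5 + 6 * e + 8 * e ^ 2 + 2 * e ^ 3 + 3 * e ^ 4 := by rw [he]; ring
    rw [this]; positivity
  have h1 : 0 ≤ 72 - 64 * a + 24 * a ^ 2 - 2 * a ^ 3 := by
    have : 72 - 64 * a + 24 * a ^ 2 - 2 * a ^ 3 = 30 + 22 * e + 18 * e ^ 2 + 2 * e ^ 3 := by
      rw [he]; ring
    rw [this]; positivity
  have h2 : 0 ≤ 72 + 48 * a - 80 * a ^ 2 + 44 * a ^ 3 - 9 * a ^ 4 := by
    have : 72 + 48 * a - 80 * a ^ 2 + 44 * a ^ 3 - 9 * a ^ 4 =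
        72 * e + 40 * a + 80 * a * e + 35 * a ^ 3 + 9 * a ^ 3 * e := by
      rw [he]; ring
    rw [this]; positivity
  have h3 : 0 ≤ 24 + 128 * a - 64 * a ^ 2 + 12 * a ^ 3 := by
    have : 24 + 128 * a - 64 * a ^ 2 + 12 * a ^ 3 =
        24 + 64 * a + 64 * a * e + 12 * a ^ 3 := by
      rw [he]; ring
    rw [this]; positivity
  have h4 : 0 ≤ 56 * a + 48 * a ^ 2 - 38 * a ^ 3 + 9 * a ^ 4 := by
    have : 56 * a + 48 * a ^ 2 - 38 * a ^ 3 + 9 * a ^ 4 =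
        56 * a + 10 * a ^ 2 + 38 * a ^ 2 * e + 9 * a ^ 4 := by
      rw [he]; ring
    rw [this]; positivity
  have h5 : 0 ≤ 40 * a ^ 2 - 10 * a ^ 3 := by
    have : 40 * a ^ 2 - 10 * a ^ 3 = 30 * a ^ 2 + 10 * a ^ 2 * e := by rw [he]; ring
    rw [this]; positivity
  have h6 : 0 ≤ 8 * a ^ 3 - 3 * a ^ 4 := by
    have : 8 * a ^ 3 - 3 * a ^ 4 = 5 * a ^ 3 + 3 * a ^ 3 * e := by rw [he]; ring
    rw [this]; positivity
  positivity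

/-- the polynomial inequality, `c = 1 - b`, `g = c * a` -/
theorem ppos {a b c r q : ℝ} (ha0 : 0 ≤ a) (ha1 : a ≤ 1) (hb : 0 ≤ b) (hc : c = 1 - b)
    (hc0 : 0 ≤ c) (hq : q = 2 - c * a)
    (hr : r = q ^ 2 - 2 * c * (1 - a) * (1 + a - c * a)) :
    0 ≤ 3 * c * r ^ 3 - q ^ 3 * a * (2 - c) ^ 4 + 2 * a * (1 - 2 * c) * (2 - c) ^ 2 * r ^ 2 := by
  have h := dpos ha0 ha1 hb
  have h2 : 3 * c * r ^ 3 - q ^ 3 * a * (2 - c) ^ 4 +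
      2 * a * (1 - 2 * c) * (2 - c) ^ 2 * r ^ 2 = c * (1 - a) ^ 2 *
      ((24 - 40 * a + 32 * a ^ 2 - 14 * a ^ 3 + 3 * a ^ 4)
      + (72 - 64 * a + 24 * a ^ 2 - 2 * a ^ 3) * b
      + (72 + 48 * a - 80 * a ^ 2 + 44 * a ^ 3 - 9 * a ^ 4) * b ^ 2
      + (24 + 128 * a - 64 * a ^ 2 + 12 * a ^ 3) * b ^ 3
      + (56 * a + 48 * a ^ 2 - 38 * a ^ 3 + 9 * a ^ 4) * b ^ 4
      + (40 * a ^ 2 - 10 * a ^ 3) * b ^ 5
      + (8 * a ^ 3 - 3 * a ^ 4) * b ^ 6) := by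
    rw [hr, hq, hc]; ring
  rw [h2]
  positivity

theorem log_le {r : ℝ} (hr : 1 ≤ r) : Real.log r ≤ (r - r⁻¹) / 2 := by
  have h0 : 0 < r := by linarith
  rw [← Real.sinh_log h0]
  exact Real.self_le_sinh_iff.2 (Real.log_nonneg hr)

theorem qIneq : QIneq := by
  intro s c g hs hg hgc hc1 hk hroot
  have hc0 : 0 < c := lt_of_lt_of_le hg hgc
  obtain ⟨a, ha⟩ : ∃ a, a = g / c := ⟨_, rfl⟩
  have ha0 : 0 < a := by rw [ha]; positivity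
  have ha1 : a ≤ 1 := by rw [ha]; exact (div_le_one hc0).2 hgc
  have hga : g = c * a := by rw [ha]; field_simp
  obtain ⟨b, hb⟩ : ∃ b, b = 1 - c := ⟨_, rfl⟩
  have hb0 : 0 ≤ b := by linarith
  obtain ⟨q, hq⟩ : ∃ q, q = 2 - c * a := ⟨_, rfl⟩
  have hqg : q = 2 - g := by rw [hq, hga]
  have hq0 : 0 < q := by rw [hqg]; linarith
  obtain ⟨r, hr⟩ : ∃ r, r = q ^ 2 - 2 * c * (1 - a) * (1 + a - c * a) := ⟨_, rfl⟩
  have hr0 : 0 < r := by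
    have h1 : r = (1 + (1 - a) ^ 2) + 2 * b + a * (2 - a) * b ^ 2 := by
      rw [hr, hq, hb]; ring
    rw [h1]
    have h2 : 0 ≤ 2 - a := by linarith
    positivity
  have hP := ppos ha0.le ha1 hb0 (by linarith : c = 1 - b) hc0.le hq hr
  -- the logarithm
  have hL : Lam c - Lam g ≤ (c - g) * ((c + g) / (c * g) - 1) := by
    have h1 := log_le ((one_le_div hg).2 hgc)
    rw [Real.log_div hc0.ne' hg.ne'] at h1
    unfold Lam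
    have h2 : (c - g) * ((c + g) / (c * g) - 1) = (c / g - (c / g)⁻¹) - (c - g) := by
      field_simp
      ring
    rw [h2]
    linarith
  obtain ⟨k, hk'⟩ : ∃ k, k = 1 - 2 * s * g := ⟨_, rfl⟩
  rw [← hk'] at hk ⊢
  have hkr : r ≤ q ^ 2 * k := by
    have h1 : q ^ 2 * s = Lam c - Lam g := by rw [hqg]; linarith
    have h2 : q ^ 2 * k = q ^ 2 - 2 * g * (Lam c - Lam g) := by
      rw [← h1, hk']; ring
    have h3 : 2 * g * (Lam c - Lam g) ≤ 2 * g * ((c - g) * ((c + g) / (c * g) - 1)) :=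
      mul_le_mul_of_nonneg_left hL (by positivity)
    have h4 : 2 * g * ((c - g) * ((c + g) / (c * g) - 1)) =
        2 * c * (1 - a) * (1 + a - c * a) := by
      rw [hga]
      field_simp
    rw [h2, hr]
    linarith
  rw [← hqg]
  have hk0 : 0 < k := hk
  -- final step
  have hE0 : 0 ≤ 3 * c ^ 2 * r ^ 3 - q ^ 3 * g * (2 - c) ^ 4
      + 2 * g * (1 - 2 * c) * (2 - c) ^ 2 * r ^ 2 := by
    have : 3 * c ^ 2 * r ^ 3 - q ^ 3 * g * (2 - c) ^ 4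
      + 2 * g * (1 - 2 * c) * (2 - c) ^ 2 * r ^ 2 = c * (3 * c * r ^ 3 -
      q ^ 3 * a * (2 - c) ^ 4 + 2 * a * (1 - 2 * c) * (2 - c) ^ 2 * r ^ 2) := by
      rw [hga]; ring
    rw [this]
    exact mul_nonneg hc0.le hP
  have hkey : (3 * q ^ 3 * c ^ 2 * k ^ 3 - g * (2 - c) ^ 4
      + 2 * g * q * (1 - 2 * c) * (2 - c) ^ 2 * k ^ 2) * r ^ 2 * q ^ 3 =
      (3 * c ^ 2 * r ^ 3 - q ^ 3 * g * (2 - c) ^ 4
      + 2 * g * (1 - 2 * c) * (2 - c) ^ 2 * r ^ 2) * (q ^ 2 * k) ^ 2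
      + 3 * c ^ 2 * (q ^ 2 * k) ^ 2 * r ^ 2 * (q ^ 2 * k - r)
      + g * (2 - c) ^ 4 * q ^ 3 * ((q ^ 2 * k) ^ 2 - r ^ 2) := by
    ring
  have h5 : 0 ≤ (3 * q ^ 3 * c ^ 2 * k ^ 3 - g * (2 - c) ^ 4
      + 2 * g * q * (1 - 2 * c) * (2 - c) ^ 2 * k ^ 2) * (r ^ 2 * q ^ 3) := by
    rw [← mul_assoc, hkey]
    have h6 : 0 ≤ q ^ 2 * k - r := by linarith
    have h7 : 0 ≤ (q ^ 2 * k) ^ 2 - r ^ 2 := by nlinarith
    positivity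
  exact nonneg_of_mul_nonneg_left h5 (by positivity)

end Pool.Agent.W397.CW
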